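import Pool.Agent.Helper33.KD4.WrapDefs

/-! KD project (MP_019250_an), Part IV.8e: METRIC -/

namespace KD.IV

open MeasureTheory Set Filter Topology

variable {d : ℕ}

namespace MetricAux

/-- the expression whose infimum over `w` is `dl` -/
noncomputable def dw {d : ℕ} (s : ℝ) (z z' : ℝ × Ed d × Ed d) (w : Ed d) : ℝ :=
  max (max (|z.1 - z'.1| ^ (1 / (2 * s)))
    (‖z.2.1 - z'.2.1 - (z.1 - z'.1) • w‖ ^ (1 / (1 + 2 * s)))) (max ‖z.2.2 - w‖ ‖z'.2.2 - w‖)

theorem dw_symm (s : ℝ) (z z' : ℝ × Ed d × Ed d) (w : Ed d) : dw s z' z w = dw s z z' w := by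
  unfold dw
  have h1 : |z'.1 - z.1| = |z.1 - z'.1| := abs_sub_comm _ _
  have h2 : ‖z'.2.1 - z.2.1 - (z'.1 - z.1) • w‖ = ‖z.2.1 - z'.2.1 - (z.1 - z'.1) • w‖ := by
    rw [← norm_neg]
    congr 1
    rw [← sub_eq_zero]
    module
  rw [h1, h2, max_comm ‖z'.2.2 - w‖]

theorem dl_eq (s : ℝ) (z z' : ℝ × Ed d × Ed d) : dl s z z' = ⨅ w : Ed d, dw s z z' w := rfl

theorem dw_nonneg (s : ℝ) (z z' : ℝ × Ed d × Ed d) (w : Ed d) : 0 ≤ dw s z z' w :=
  le_max_of_le_right (le_max_of_le_left (norm_nonneg _))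

theorem norm_symm_le (y : Ed d) : ‖(toE d).symm y‖ ≤ ‖y‖ := by
  rw [pi_norm_le_iff_of_nonneg (norm_nonneg _)]
  intro i
  exact PiLp.norm_apply_le y i

theorem key {s α rr C : ℝ} (hs : 0 < s) (hα : 0 < α) (hrr : 0 < rr)
    (hC : 0 < C) (f : ℝ → Ed d → Ed d → ℝ) (A B : ℝ) (hA : 0 ≤ A) (hB : 0 ≤ B)
    (hb : ∀ t x v, 0 < t → t < 1 → ‖x‖ < 1 → |f t x v| ≤ A)
    (hH : ∀ (t0 : ℝ) (x0 v0 : Vd d), (t0, toE d x0, toE d v0) ∈ QE d →
        ∀ (ρ : ℝ), 0 < ρ → ρ ≤ 1 → ∀ (t : ℝ) (x v : Vd d), -ρ ^ (2 * s) ≤ t → t ≤ 0 →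
        ‖x‖ ≤ ρ ^ (1 + 2 * s) → ‖v‖ ≤ ρ →
        |trf s rr t0 x0 v0 (fV f) t x v - fV f t0 x0 v0| ≤ C * (A + B) * ρ ^ α)
    (z z' : ℝ × Ed d × Ed d) (hz : z ∈ QE d) (hz' : z' ∈ QE d) (htt : z'.1 ≤ z.1) (w : Ed d) :
    |f z.1 z.2.1 z.2.2 - f z'.1 z'.2.1 z'.2.2| ≤
      max C 2 * (2 / rr) ^ α * (A + B) * (dw s z z' w) ^ α := by
  obtain ⟨t, x, v⟩ := z
  obtain ⟨t', x', v'⟩ := z'
  obtain ⟨ht1, ht2, hx, hv⟩ := hz
  obtain ⟨ht1', ht2', hx', hv'⟩ := hz'
  simp only at ht1 ht2 hx hv ht1' ht2' hx' hv' htt ⊢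
  set δ : ℝ := dw s (t, x, v) (t', x', v') w with hδ
  have hδ0 : 0 ≤ δ := dw_nonneg _ _ _ _
  have hs2 : 0 < 2 * s := by linarith
  have hs3 : 0 < 1 + 2 * s := by linarith
  have hmax : 0 < max C 2 := lt_max_of_lt_left hC
  have hAB : 0 ≤ A + B := by linarith
  have hrr0 : rr ≠ 0 := hrr.ne'
  -- bounds by δ
  have e1 : |t - t'| ^ (1 / (2 * s)) ≤ δ := by
    rw [hδ]; unfold dw
    exact le_max_of_le_left (le_max_left _ _)
  have e2 : ‖x - x' - (t - t') • w‖ ^ (1 / (1 + 2 * s)) ≤ δ := by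
    rw [hδ]; unfold dw
    exact le_max_of_le_left (le_max_right _ _)
  have e3 : ‖v - w‖ ≤ δ := by
    rw [hδ]; unfold dw
    exact le_max_of_le_right (le_max_left _ _)
  have e4 : ‖v' - w‖ ≤ δ := by
    rw [hδ]; unfold dw
    exact le_max_of_le_right (le_max_right _ _)
  have pw : ∀ (a p : ℝ), 0 ≤ a → 0 < p → a ^ (1 / p) ≤ δ → a ≤ δ ^ p := by
    intro a p ha hp h
    calc a = (a ^ (1 / p)) ^ p := by
          rw [← Real.rpow_mul ha, one_div, inv_mul_cancel₀ hp.ne', Real.rpow_one]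
      _ ≤ δ ^ p := Real.rpow_le_rpow (Real.rpow_nonneg ha _) h hp.le
  have g1 : |t - t'| ≤ δ ^ (2 * s) := pw _ _ (abs_nonneg _) hs2 e1
  have g2 : ‖x - x' - (t - t') • w‖ ≤ δ ^ (1 + 2 * s) := pw _ _ (norm_nonneg _) hs3 e2
  have gx : ‖x' - x - (t' - t) • v‖ ≤ 2 * δ ^ (1 + 2 * s) := by
    have h1 : x' - x - (t' - t) • v = -(x - x' - (t - t') • w) + (t - t') • (v - w) := by
      module
    rw [h1]
    refine (norm_add_le _ _).trans ?_
    rw [norm_neg, norm_smul, Real.norm_eq_abs]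
    have h2 : |t - t'| * ‖v - w‖ ≤ δ ^ (2 * s) * δ :=
      mul_le_mul g1 e3 (norm_nonneg _) (Real.rpow_nonneg hδ0 _)
    have h3 : δ ^ (2 * s) * δ = δ ^ (1 + 2 * s) := by
      rcases hδ0.eq_or_lt with h | h
      · rw [← h, mul_zero, Real.zero_rpow hs3.ne']
      · rw [add_comm, Real.rpow_add h, Real.rpow_one]
    linarith
  have gv : ‖v' - v‖ ≤ 2 * δ := by
    have h1 : v' - v = (v' - w) - (v - w) := by abel
    rw [h1]
    refine (norm_sub_le _ _).trans ?_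
    linarith
  -- case δ = 0
  rcases hδ0.eq_or_lt with h0 | hδp
  · have i1 : t = t' := by
      rw [← h0, Real.zero_rpow hs2.ne'] at g1
      have := abs_nonpos_iff.1 g1
      linarith
    have i2 : x' = x := by
      rw [← h0, Real.zero_rpow hs3.ne', mul_zero] at gx
      have := norm_le_zero_iff.1 gx
      rw [i1] at this
      simpa [sub_eq_zero] using this
    have i3 : v' = v := by
      rw [← h0, mul_zero] at gv
      exact sub_eq_zero.1 (norm_le_zero_iff.1 gv)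
    rw [i1, i2, i3, sub_self, abs_zero]
    positivity
  set ρ : ℝ := 2 * δ / rr with hρ
  have hρ0 : 0 < ρ := by positivity
  have hρα : (2 / rr) ^ α * δ ^ α = ρ ^ α := by
    rw [← Real.mul_rpow (by positivity) hδ0, hρ]
    congr 1
    ring
  have hgoal : max C 2 * (2 / rr) ^ α * (A + B) * δ ^ α = max C 2 * (A + B) * ρ ^ α := by
    rw [← hρα]; ring
  rw [hgoal]
  rcases le_or_gt ρ 1 with hρ1 | hρ1
  · -- near case
    have hmem : (t, toE d ((toE d).symm x), toE d ((toE d).symm v)) ∈ QE d := by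
      simp only [ContinuousLinearEquiv.apply_symm_apply]
      exact ⟨ht1, ht2, hx, hv⟩
    have hrrs : 0 < rr ^ (2 * s) := Real.rpow_pos_of_pos hrr _
    have hrrx : 0 < rr ^ (1 + 2 * s) := Real.rpow_pos_of_pos hrr _
    have hρs : ρ ^ (2 * s) = (2 * δ) ^ (2 * s) / rr ^ (2 * s) := by
      rw [hρ, Real.div_rpow (by positivity) hrr.le]
    have hρx : ρ ^ (1 + 2 * s) = (2 * δ) ^ (1 + 2 * s) / rr ^ (1 + 2 * s) := by
      rw [hρ, Real.div_rpow (by positivity) hrr.le]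
    have c1 : -ρ ^ (2 * s) ≤ (t' - t) / rr ^ (2 * s) := by
      rw [hρs, ← neg_div, div_le_div_iff_of_pos_right hrrs]
      have h1 : δ ^ (2 * s) ≤ (2 * δ) ^ (2 * s) :=
        Real.rpow_le_rpow hδ0 (by linarith) hs2.le
      have h2 := (abs_le.1 g1).2
      linarith
    have c2 : (t' - t) / rr ^ (2 * s) ≤ 0 := div_nonpos_of_nonpos_of_nonneg (by linarith) hrrs.le
    have c3 : ‖(rr ^ (1 + 2 * s))⁻¹ • (toE d).symm (x' - x - (t' - t) • v)‖ ≤ ρ ^ (1 + 2 * s) := by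
      rw [norm_smul, Real.norm_eq_abs, abs_of_pos (inv_pos.2 hrrx), hρx, inv_mul_eq_div,
        div_le_div_iff_of_pos_right hrrx]
      have h1 : 2 * δ ^ (1 + 2 * s) ≤ (2 * δ) ^ (1 + 2 * s) := by
        rw [Real.mul_rpow (by norm_num) hδ0]
        refine mul_le_mul_of_nonneg_right ?_ (Real.rpow_nonneg hδ0 _)
        calc (2 : ℝ) = 2 ^ (1 : ℝ) := (Real.rpow_one _).symm
          _ ≤ 2 ^ (1 + 2 * s) := Real.rpow_le_rpow_of_exponent_le (by norm_num) (by linarith)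
      exact ((norm_symm_le _).trans gx).trans h1
    have c4 : ‖rr⁻¹ • (toE d).symm (v' - v)‖ ≤ ρ := by
      rw [norm_smul, Real.norm_eq_abs, abs_of_pos (inv_pos.2 hrr), hρ, inv_mul_eq_div,
        div_le_div_iff_of_pos_right hrr]
      exact (norm_symm_le _).trans gv
    have h := hH t ((toE d).symm x) ((toE d).symm v) hmem ρ hρ0 hρ1 _ _ _ c1 c2 c3 c4
    have k1 : tt s rr t ((t' - t) / rr ^ (2 * s)) = t' := by
      unfold tt
      rw [mul_div_cancel₀ _ hrrs.ne']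
      ring
    have k2 : tx s rr ((toE d).symm x) ((toE d).symm v) ((t' - t) / rr ^ (2 * s))
        ((rr ^ (1 + 2 * s))⁻¹ • (toE d).symm (x' - x - (t' - t) • v)) = (toE d).symm x' := by
      unfold tx
      rw [mul_div_cancel₀ _ hrrs.ne', smul_smul, mul_inv_cancel₀ hrrx.ne', one_smul, map_sub,
        map_sub, map_smul]
      abel
    have k3 : tv rr ((toE d).symm v) (rr⁻¹ • (toE d).symm (v' - v)) = (toE d).symm v' := by
      unfold tv
      rw [smul_smul, mul_inv_cancel₀ hrr0, one_smul, map_sub]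
      abel
    have k4 : trf s rr t ((toE d).symm x) ((toE d).symm v) (fV f) ((t' - t) / rr ^ (2 * s))
        ((rr ^ (1 + 2 * s))⁻¹ • (toE d).symm (x' - x - (t' - t) • v))
        (rr⁻¹ • (toE d).symm (v' - v)) = f t' x' v' := by
      unfold trf
      rw [k1, k2, k3]
      unfold fV
      rw [ContinuousLinearEquiv.apply_symm_apply, ContinuousLinearEquiv.apply_symm_apply,
        if_pos ⟨by linarith, ht2', by linarith⟩]
    have k5 : fV f t ((toE d).symm x) ((toE d).symm v) = f t x v := by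
      unfold fV
      rw [ContinuousLinearEquiv.apply_symm_apply, ContinuousLinearEquiv.apply_symm_apply,
        if_pos ⟨by linarith, ht2, by linarith⟩]
    rw [k4, k5, abs_sub_comm] at h
    refine h.trans ?_
    refine mul_le_mul_of_nonneg_right (mul_le_mul_of_nonneg_right (le_max_left _ _) hAB)
      (Real.rpow_nonneg hρ0.le _)
  · -- far case
    have h1 := hb t x v (by linarith) ht2 (by linarith)
    have h2 := hb t' x' v' (by linarith) ht2' (by linarith)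
    have h3 : |f t x v - f t' x' v'| ≤ 2 * A := by
      have := abs_sub (f t x v) (f t' x' v')
      linarith
    have h4 : (1 : ℝ) ≤ ρ ^ α := Real.one_le_rpow hρ1.le hα.le
    have h5 : 2 * A ≤ max C 2 * (A + B) :=
      mul_le_mul (le_max_right _ _) (by linarith) hA hmax.le
    have h6 : 0 ≤ max C 2 * (A + B) := by positivity
    calc |f t x v - f t' x' v'| ≤ 2 * A := h3
      _ ≤ max C 2 * (A + B) := h5
      _ = max C 2 * (A + B) * 1 := (mul_one _).symm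
      _ ≤ max C 2 * (A + B) * ρ ^ α := mul_le_mul_of_nonneg_left h4 h6

end MetricAux

open MetricAux in
/-- **IV.8e METRIC**: from the pointwise decay at every point of `Q` to the estimate in the
kinetic distance. -/
theorem METRIC_pf (hd : 1 ≤ d) {s α rr C : ℝ} (hs : 0 < s) (hs1 : s < 1) (hα : 0 < α) (hrr : 0 < rr)
    (hrr1 : rr ≤ 1) (hC : 0 < C) :
    ∃ C' > 0, ∀ (f : ℝ → Ed d → Ed d → ℝ) (A B : ℝ), 0 ≤ B →
      (∀ t x v, 0 < t → t < 1 → ‖x‖ < 1 → |f t x v| ≤ A) →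
      (∀ (t0 : ℝ) (x0 v0 : Vd d), (t0, toE d x0, toE d v0) ∈ QE d →
        ∀ (ρ : ℝ), 0 < ρ → ρ ≤ 1 → ∀ (t : ℝ) (x v : Vd d), -ρ ^ (2 * s) ≤ t → t ≤ 0 →
        ‖x‖ ≤ ρ ^ (1 + 2 * s) → ‖v‖ ≤ ρ →
        |trf s rr t0 x0 v0 (fV f) t x v - fV f t0 x0 v0| ≤ C * (A + B) * ρ ^ α) →
      ∀ z ∈ QE d, ∀ z' ∈ QE d,
        |f z.1 z.2.1 z.2.2 - f z'.1 z'.2.1 z'.2.2| ≤ C' * (A + B) * dl s z z' ^ α := by
  have hmax : 0 < max C 2 := lt_max_of_lt_left hC
  have hC' : 0 < max C 2 * (2 / rr) ^ α := by positivity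
  refine ⟨max C 2 * (2 / rr) ^ α, hC', ?_⟩
  intro f A B hB hb hH z hz z' hz'
  have hA : 0 ≤ A := (abs_nonneg _).trans (hb (1 / 2) 0 0 (by norm_num) (by norm_num) (by simp))
  have hAB : 0 ≤ A + B := by linarith
  set C1 : ℝ := max C 2 * (2 / rr) ^ α with hC1
  have hkey : ∀ w, |f z.1 z.2.1 z.2.2 - f z'.1 z'.2.1 z'.2.2| ≤
      C1 * (A + B) * (dw s z z' w) ^ α := by
    intro w
    rcases le_total z'.1 z.1 with h | h
    · exact key hs hα hrr hC f A B hA hB hb hH z z' hz hz' h w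
    · have := key hs hα hrr hC f A B hA hB hb hH z' z hz' hz h w
      rw [dw_symm, abs_sub_comm] at this
      exact this
  rcases hAB.eq_or_lt with h0 | hpos
  · have := hkey 0
    rw [← h0, mul_zero, zero_mul] at this
    rw [← h0, mul_zero, zero_mul]
    exact this
  · have hP : 0 < C1 * (A + B) := mul_pos hC' hpos
    set F : ℝ := |f z.1 z.2.1 z.2.2 - f z'.1 z'.2.1 z'.2.2| with hF
    have hF0 : 0 ≤ F := abs_nonneg _
    have h1 : ∀ w, (F / (C1 * (A + B))) ^ (1 / α) ≤ dw s z z' w := by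
      intro w
      have h2 : F / (C1 * (A + B)) ≤ (dw s z z' w) ^ α := by
        rw [div_le_iff₀ hP]
        calc F ≤ C1 * (A + B) * (dw s z z' w) ^ α := hkey w
          _ = (dw s z z' w) ^ α * (C1 * (A + B)) := mul_comm _ _
      calc (F / (C1 * (A + B))) ^ (1 / α) ≤ ((dw s z z' w) ^ α) ^ (1 / α) :=
            Real.rpow_le_rpow (by positivity) h2 (by positivity)
        _ = dw s z z' w := by
            rw [← Real.rpow_mul (dw_nonneg _ _ _ _), mul_one_div_cancel hα.ne', Real.rpow_one]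
    have h3 : (F / (C1 * (A + B))) ^ (1 / α) ≤ dl s z z' := by
      rw [dl_eq]
      exact le_ciInf h1
    have h4 : F / (C1 * (A + B)) ≤ dl s z z' ^ α := by
      calc F / (C1 * (A + B)) = ((F / (C1 * (A + B))) ^ (1 / α)) ^ α := by
            rw [← Real.rpow_mul (by positivity), one_div_mul_cancel hα.ne', Real.rpow_one]
        _ ≤ dl s z z' ^ α := Real.rpow_le_rpow (by positivity) h3 hα.le
    rw [div_le_iff₀ hP] at h4
    calc F ≤ dl s z z' ^ α * (C1 * (A + B)) := h4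
      _ = C1 * (A + B) * dl s z z' ^ α := mul_comm _ _

end KD.IV
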